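import Pool.Agent.H16.TK.Stmt2

/-!
Module MMK: the marks of a small flap do not matter.
-/

set_option autoImplicit false

open Set

namespace Pool.Agent.TK

/-- An isomorphism over `a` of two flaps on the same set `D`, whose structures agree outside `D`,
is an isomorphism over every other tuple `b` of marks. -/
private lemma mmk_key {C : Type} {c0 : C} {M M' : St C} {a b : List ℕ} {D : Set ℕ} {h : ℕ → ℕ}
    (hM : Valid c0 M) (hM' : Valid c0 M') (ha : IsCp M (ms a) D) (ha' : IsCp M' (ms a) D)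
    (hb : IsCp M (ms b) D)
    (hE : ∀ u v, u ∉ D → v ∉ D → M.1 u v = M'.1 u v)
    (hL : ∀ l : List ℕ, (∀ u ∈ l, u ∉ D) → M.2 l = M'.2 l)
    (H : FIh h M a D M' a D) : FIh h M b D M' b D := by
  have hmt := H.2.1.mapsTo
  have hbD : ∀ u ∈ b, u ∉ D := fun u hu huD => Set.disjoint_left.1 hb.disj huD hu
  -- there are no edges from `D` to elements of `b` which are not in `a`
  have hnoM : ∀ u, u ∈ b → u ∉ a → ∀ y ∈ D, M.1 u y = false := by
    intro u hu hua y hy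
    by_contra hne
    exact hua (ha.nb hM ⟨hbD u hu, y, hy, by simpa using hne⟩)
  have hnoM' : ∀ u, u ∈ b → u ∉ a → ∀ y ∈ D, M'.1 u y = false := by
    intro u hu hua y hy
    by_contra hne
    exact hua (ha'.nb hM' ⟨hbD u hu, y, hy, by simpa using hne⟩)
  refine ⟨rfl, H.2.1, ?_⟩
  intro x hx
  have hP := H.2.2 x hx
  rw [← dg_eq_zip] at hP ⊢
  -- the shape of the elements of the position
  have hmem : ∀ z : ℕ × ℕ, z ∈ dg b ++ x.map (fun z => (z, h z)) →
      (z.1 = z.2 ∧ z.1 ∈ b ∧ z.1 ∉ D) ∨ (z.1 ∈ D ∧ z.2 ∈ D ∧ z ∈ x.map (fun z => (z, h z))) := by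
    intro z hz
    rcases List.mem_append.1 hz with hz | hz
    · left
      obtain ⟨h1, h2⟩ := mem_dg.1 hz
      exact ⟨h1, h2, hbD _ h2⟩
    · right
      obtain ⟨w, hw, rfl⟩ := List.mem_map.1 hz
      exact ⟨hx w hw, hmt (hx w hw), List.mem_map.2 ⟨w, hw, rfl⟩⟩
  have hxa : ∀ z, z ∈ x.map (fun z => (z, h z)) → z ∈ dg a ++ x.map (fun z => (z, h z)) :=
    fun z hz => List.mem_append_right _ hz
  have hda : ∀ z : ℕ × ℕ, z.1 = z.2 → z.1 ∈ a → z ∈ dg a ++ x.map (fun z => (z, h z)) :=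
    fun z h1 h2 => List.mem_append_left _ (mem_dg.2 ⟨h1, h2⟩)
  refine ⟨?_, ?_, ?_⟩
  · intro z hz w hw
    rcases hmem z hz with ⟨h1, h2, h3⟩ | ⟨h1, h2, h3⟩ <;>
      rcases hmem w hw with ⟨k1, k2, k3⟩ | ⟨k1, k2, k3⟩
    · rw [← h1, ← k1]
    · constructor
      · intro e; exact absurd (e ▸ k1) h3
      · intro e; exact absurd (h1.trans e ▸ k2) h3
    · constructor
      · intro e; exact absurd (e ▸ h1) k3
      · intro e; exact absurd (k1.trans e.symm ▸ h2) k3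
    · exact hP.1 z (hxa z h3) w (hxa w k3)
  · intro z hz w hw
    rcases hmem z hz with ⟨h1, h2, h3⟩ | ⟨h1, h2, h3⟩ <;>
      rcases hmem w hw with ⟨k1, k2, k3⟩ | ⟨k1, k2, k3⟩
    · rw [← h1, ← k1]; exact hE _ _ h3 k3
    · by_cases hza : z.1 ∈ a
      · exact hP.2.1 z (hda z h1 hza) w (hxa w k3)
      · rw [← h1, hnoM _ h2 hza _ k1, hnoM' _ h2 hza _ k2]
    · by_cases hwa : w.1 ∈ a
      · exact hP.2.1 z (hxa z h3) w (hda w k1 hwa)
      · rw [← k1, hM.1, hnoM _ k2 hwa _ h1, hM'.1, hnoM' _ k2 hwa _ h2]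
    · exact hP.2.1 z (hxa z h3) w (hxa w k3)
  · intro q hq
    by_cases hall : ∀ z ∈ q, z.1 = z.2 ∧ z.1 ∈ b ∧ z.1 ∉ D
    · have e : q.map Prod.snd = q.map Prod.fst :=
        List.map_congr_left (fun z hz => (hall z hz).1.symm)
      rw [e]
      apply hL
      intro u hu
      obtain ⟨z, hz, rfl⟩ := List.mem_map.1 hu
      exact (hall z hz).2.2
    · push Not at hall
      obtain ⟨z0, hz0, hn0⟩ := hall
      have hz0D : z0.1 ∈ D ∧ z0.2 ∈ D := by
        rcases hmem z0 (hq z0 hz0) with ⟨h1, h2, h3⟩ | ⟨h1, h2, h3⟩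
        · exact absurd (hn0 h1 h2) h3
        · exact ⟨h1, h2⟩
      by_cases hbad : ∃ z ∈ q, z.1 = z.2 ∧ z.1 ∈ b ∧ z.1 ∉ D ∧ z.1 ∉ a
      · obtain ⟨z, hz, h1, h2, h3, h4⟩ := hbad
        have e1 : M.2 (q.map Prod.fst) = c0 := by
          by_contra hne
          have := hM.2.2 _ hne z.1 (List.mem_map.2 ⟨z, hz, rfl⟩) z0.1
            (List.mem_map.2 ⟨z0, hz0, rfl⟩) (fun e => h3 (e ▸ hz0D.1))
          rw [hnoM _ h2 h4 _ hz0D.1] at this
          exact absurd this (by simp)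
        have e2 : M'.2 (q.map Prod.snd) = c0 := by
          by_contra hne
          have := hM'.2.2 _ hne z.2 (List.mem_map.2 ⟨z, hz, rfl⟩) z0.2
            (List.mem_map.2 ⟨z0, hz0, rfl⟩) (fun e => h3 (h1 ▸ e ▸ hz0D.2))
          rw [← h1, hnoM' _ h2 h4 _ hz0D.2] at this
          exact absurd this (by simp)
        rw [e1, e2]
      · push Not at hbad
        apply hP.2.2 q
        intro z hz
        rcases hmem z (hq z hz) with ⟨h1, h2, h3⟩ | ⟨h1, h2, h3⟩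
        · exact hda z h1 (hbad z hz h1 h2 h3)
        · exact hxa z h3

/-- witnesses for `t` -/
private def MmkQ {C : Type} (c0 : C) (r : Rk) (M : St C) (a b : List ℕ) (D : Set ℕ) (t : Fl C)
    (F : Fl C) (M' : St C) : Prop :=
  Valid c0 F.1 ∧ F.2.2 ∉ F.2.1 ∧ Valid c0 M' ∧ IsCp M' (ms a) D ∧ IsCp M' (ms b) D ∧
    FI M' b D F.1 F.2.1 F.set ∧
    (∀ u v, u ∉ D → v ∉ D → M'.1 u v = M.1 u v) ∧
    (∀ l : List ℕ, (∀ u ∈ l, u ∉ D) → M'.2 l = M.2 l) ∧
    FI M' a D t.1 t.2.1 t.set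

/-- MMK: the marks do not matter. -/
theorem pf_MMK {C : Type} {c0 : C} (hRP1 : RP1 C c0) (hINF : INF C) : MMK C c0 := by
  classical
  intro r hr M a b D hM ha hb hs
  by_cases hfin : D.Finite
  · apply Rig.small
    intro N c v hN hv hF
    exact (hINF M N b c D _ (hF.mono hr)).2 hfin
  · have hinf : D.Infinite := hfin
    obtain ⟨T, hTc, hTv, hT⟩ := hs
    let g : Fl C → Fl C := fun t =>
      if H : ∃ F M', MmkQ c0 r M a b D t F M' then H.choose else t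
    have hg : ∀ t, (∃ F M', MmkQ c0 r M a b D t F M') →
        ∃ M', MmkQ c0 r M a b D t (g t) M' := by
      intro t H
      have e : g t = H.choose := dif_pos H
      rw [e]
      exact H.choose_spec
    refine ⟨g '' {t | t ∈ T ∧ ∃ F M', MmkQ c0 r M a b D t F M'}, ?_, ?_, ?_⟩
    · exact (hTc.mono (fun t ht => ht.1)).image g
    · rintro _ ⟨t, ⟨ht, hF⟩, rfl⟩
      obtain ⟨M', hQ⟩ := hg t hF
      exact ⟨hQ.1, hQ.2.1⟩
    · intro N c v hN hv hF
      obtain ⟨M', hM', hcb, hFI, hbf, hNb, hE, hL, hall⟩ :=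
        hRP1 r hr M b D hM hb hinf N c v hN hv hF
      obtain ⟨hca, hbfa⟩ := hall a D ha subset_rfl
      have hFBa : FB r M a D M' a D := ⟨rfl, by rw [← dg_eq_zip]; exact hbfa⟩
      obtain ⟨v0, hv0, hDv0⟩ := id hca
      rw [hDv0] at hFBa
      obtain ⟨t, htT, hFt⟩ := hT M' a v0 hM' hv0 (by rw [← hDv0] at hFBa ⊢; exact hFBa)
      rw [← hDv0] at hFt
      have hQ : MmkQ c0 r M a b D t (N, c, v) M' :=
        ⟨hN, hv, hM', hca, hcb, hFI, hE, hL, hFt⟩
      have hex : ∃ F M', MmkQ c0 r M a b D t F M' := ⟨_, _, hQ⟩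
      refine ⟨g t, ⟨t, ⟨htT, hex⟩, rfl⟩, ?_⟩
      obtain ⟨M1, q1, q2, q3, q4, q5, q6, q7, q8, q9⟩ := hg t hex
      obtain ⟨h, hh⟩ := hFt.trans q9.symm
      have hk : FIh h M' b D M1 b D :=
        mmk_key hM' q3 hca q4 hcb
          (fun u v hu hv => (hE u v hu hv).trans (q7 u v hu hv).symm)
          (fun l hl => (hL l hl).trans (q8 l hl).symm) hh
      exact (hFI.symm.trans ⟨h, hk⟩).trans q6

end Pool.Agent.TK
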